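import Pool.Agent.N328.CD.Defs

/-!
Project CD (helper328), CD/FIVE (helper152): five even subgraphs from two disjoint joins.
-/

set_option autoImplicit false

namespace Pool.Agent.N152.CD
open Finset Pool.Agent.H160R2.HF Pool.Agent.N328.LF Pool.Agent.N328.CD

set_option linter.unusedSectionVars false

section
variable {V E : Type} [Fintype V] [Fintype E] [DecidableEq V] [DecidableEq E]

/-- the degree as a sum over all edges, modulo 2 -/
theorem par_eq (G : OrGraph V E) (A : Finset E) (v : V) : ((G.deg A v : ℕ) : ZMod 2) =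
    ∑ e, if e ∈ A then ((if G.t e = v then (1 : ZMod 2) else 0) + (if G.h e = v then 1 else 0)) else 0 := by
  unfold OrGraph.deg
  rw [Finset.sum_ite_mem, Finset.univ_inter, Nat.cast_add, Finset.sum_add_distrib,
    Finset.sum_boole, Finset.sum_boole]

/-- parity of a symmetric difference -/
theorem par_sd (G : OrGraph V E) (A B : Finset E) (v : V) :
    ((G.deg (symmDiff A B) v : ℕ) : ZMod 2) = (G.deg A v : ℕ) + (G.deg B v : ℕ) := by
  rw [par_eq, par_eq, par_eq, ← Finset.sum_add_distrib]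
  refine Finset.sum_congr rfl fun e _ => ?_
  have h2 : ∀ x : ZMod 2, x + x = 0 := fun x => CharTwo.add_self_eq_zero x
  by_cases hA : e ∈ A <;> by_cases hB : e ∈ B
  · rw [if_neg (by simp [Finset.mem_symmDiff, hA, hB]), if_pos hA, if_pos hB, h2]
  · rw [if_pos (by simp [Finset.mem_symmDiff, hA, hB]), if_pos hA, if_neg hB, add_zero]
  · rw [if_pos (by simp [Finset.mem_symmDiff, hA, hB]), if_neg hA, if_pos hB, zero_add]
  · rw [if_neg (by simp [Finset.mem_symmDiff, hA, hB]), if_neg hA, if_neg hB, add_zero]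

theorem deg_compl (G : OrGraph V E) (hc : G.Cubic) (F : Finset E) (hF : G.IsTwoFactor F) (v : V) :
    G.deg Fᶜ v = 1 := by
  have h1 : G.deg F v + G.deg Fᶜ v = G.deg univ v := by
    unfold OrGraph.deg
    have h2 : ∀ k : E → V, (F.filter (fun e => k e = v)).card +
        (Fᶜ.filter (fun e => k e = v)).card = (univ.filter (fun e => k e = v)).card := by
      intro k
      rw [← Finset.card_union_of_disjoint, ← Finset.filter_union, Finset.union_compl]
      exact Finset.disjoint_filter_filter disjoint_compl_right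
    have h3 := h2 G.t
    have h4 := h2 G.h
    omega
  have h2 := hF v
  have h3 := hc v
  omega

theorem deg_mono (G : OrGraph V E) {A B : Finset E} (h : A ⊆ B) (v : V) : G.deg A v ≤ G.deg B v := by
  unfold OrGraph.deg
  exact add_le_add (Finset.card_le_card (Finset.filter_subset_filter _ h))
    (Finset.card_le_card (Finset.filter_subset_filter _ h))

theorem mem_ends (G : OrGraph V E) (J : Finset E) (v : V) : v ∈ ends G J ↔ 0 < G.deg J v := by
  unfold ends OrGraph.deg
  rw [Finset.mem_filter]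
  constructor
  · rintro ⟨-, j, hj, h | h⟩
    · exact Nat.add_pos_left (Finset.card_pos.2 ⟨j, Finset.mem_filter.2 ⟨hj, h⟩⟩) _
    · exact Nat.add_pos_right _ (Finset.card_pos.2 ⟨j, Finset.mem_filter.2 ⟨hj, h⟩⟩)
  · intro h
    refine ⟨Finset.mem_univ _, ?_⟩
    rcases Nat.eq_zero_or_pos (J.filter (fun e => G.t e = v)).card with h0 | h0
    · have h1 : 0 < (J.filter (fun e => G.h e = v)).card := by omega
      obtain ⟨j, hj⟩ := Finset.card_pos.1 h1
      rw [Finset.mem_filter] at hj
      exact ⟨j, hj.1, Or.inr hj.2⟩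
    · obtain ⟨j, hj⟩ := Finset.card_pos.1 h0
      rw [Finset.mem_filter] at hj
      exact ⟨j, hj.1, Or.inl hj.2⟩

theorem par_of_odd {n : ℕ} {p : Prop} [Decidable p] (h : Odd n ↔ p) : (n : ZMod 2) = if p then 1 else 0 := by
  split_ifs with hp
  · exact ZMod.natCast_eq_one_iff_odd.2 (h.2 hp)
  · rw [ZMod.natCast_eq_zero_iff_even, ← Nat.not_odd_iff_even]
    exact fun ho => hp (h.1 ho)

/-- CD/FIVE -/
theorem five
    (htj : ∀ (D : Finset E) (G : OrGraph V E) (T : Finset V),
      (∀ X : Finset V, G.cut X ∩ D = ∅ → Even (X ∩ T).card) →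
      ∃ K ⊆ D, ∀ v, (Odd (G.deg K v) ↔ v ∈ T))
    (G : OrGraph V E) (hc : G.Cubic) (F : Finset E) (hF : G.IsTwoFactor F)
    (J : Finset E) (hJ : J ∩ F = ∅)
    (hpar : ∀ X : Finset V, G.cut X ∩ F = ∅ → Even (X.card + (X ∩ ends G J).card))
    (K₁ K₂ : Finset E) (h12 : K₁ ∩ K₂ = ∅) (h1 : K₁ ∩ J = ∅) (h2 : K₂ ∩ J = ∅)
    (hd1 : ∀ v, (Odd (G.deg K₁ v) ↔ v ∈ ends G J))
    (hd2 : ∀ v, (Odd (G.deg K₂ v) ↔ v ∈ ends G J)) : FiveCDC G := by
  obtain ⟨A, hAF, hA⟩ := htj F G (ends G J)ᶜ (by
    intro X hX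
    have e1 := hpar X hX
    have e2 : (X ∩ (ends G J)ᶜ).card + (X ∩ ends G J).card = X.card := by
      rw [← Finset.card_union_of_disjoint, ← Finset.inter_union_distrib_left, Finset.union_comm,
        Finset.union_compl, Finset.inter_univ]
      exact Finset.disjoint_of_subset_left Finset.inter_subset_right
        (Finset.disjoint_of_subset_right Finset.inter_subset_right disjoint_compl_left)
    rw [← e2] at e1
    rw [Nat.even_iff] at e1 ⊢
    omega)
  have hJF : ∀ e, e ∈ J → e ∉ F := by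
    intro e he hf
    have : e ∈ J ∩ F := Finset.mem_inter.2 ⟨he, hf⟩
    rw [hJ] at this
    exact absurd this (Finset.notMem_empty _)
  have h12' : ∀ e, e ∈ K₁ → e ∉ K₂ := by
    intro e he hf
    have : e ∈ K₁ ∩ K₂ := Finset.mem_inter.2 ⟨he, hf⟩
    rw [h12] at this
    exact absurd this (Finset.notMem_empty _)
  have h1' : ∀ e, e ∈ J → e ∉ K₁ := by
    intro e he hf
    have : e ∈ K₁ ∩ J := Finset.mem_inter.2 ⟨hf, he⟩
    rw [h1] at this
    exact absurd this (Finset.notMem_empty _)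
  have h2' : ∀ e, e ∈ J → e ∉ K₂ := by
    intro e he hf
    have : e ∈ K₂ ∩ J := Finset.mem_inter.2 ⟨hf, he⟩
    rw [h2] at this
    exact absurd this (Finset.notMem_empty _)
  -- parities
  have pF : ∀ v, ((G.deg F v : ℕ) : ZMod 2) = 0 := by
    intro v
    rw [hF v]
    rfl
  have pFc : ∀ v, ((G.deg Fᶜ v : ℕ) : ZMod 2) = 1 := by
    intro v
    rw [deg_compl G hc F hF v]
    rfl
  have pJ : ∀ v, ((G.deg J v : ℕ) : ZMod 2) = if v ∈ ends G J then 1 else 0 := by
    intro v
    apply par_of_odd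
    rw [mem_ends]
    have h3 : G.deg J v ≤ 1 := by
      rw [← deg_compl G hc F hF v]
      refine deg_mono G (fun e he => ?_) v
      rw [Finset.mem_compl]
      exact hJF e he
    constructor
    · intro ho
      exact ho.pos
    · intro hp
      have : G.deg J v = 1 := by omega
      rw [this]
      exact odd_one
  have pA : ∀ v, ((G.deg A v : ℕ) : ZMod 2) = if v ∈ ends G J then 0 else 1 := by
    intro v
    rw [par_of_odd (hA v)]
    by_cases hv : v ∈ ends G J
    · rw [if_neg (by rw [Finset.mem_compl]; exact fun h => h hv), if_pos hv]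
    · rw [if_pos (by rw [Finset.mem_compl]; exact hv), if_neg hv]
  have p1 : ∀ v, ((G.deg K₁ v : ℕ) : ZMod 2) = if v ∈ ends G J then 1 else 0 := fun v =>
    par_of_odd (hd1 v)
  have p2 : ∀ v, ((G.deg K₂ v : ℕ) : ZMod 2) = if v ∈ ends G J then 1 else 0 := fun v =>
    par_of_odd (hd2 v)
  have hh : (1 : ZMod 2) + 1 = 0 := by decide
  -- the sets
  obtain ⟨A2, hA2⟩ : ∃ A2, A2 = symmDiff (symmDiff Fᶜ J) A := ⟨_, rfl⟩
  obtain ⟨D, hD⟩ : ∃ D, D = symmDiff K₁ K₂ := ⟨_, rfl⟩
  have pA2 : ∀ v, ((G.deg A2 v : ℕ) : ZMod 2) = 0 := by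
    intro v
    rw [hA2, par_sd, par_sd, pFc, pJ, pA]
    split_ifs
    · rw [hh, add_zero]
    · rw [add_zero, hh]
  have pD : ∀ v, ((G.deg D v : ℕ) : ZMod 2) = 0 := by
    intro v
    rw [hD, par_sd, p1, p2]
    split_ifs
    · rw [hh]
    · rw [add_zero]
  refine ⟨![symmDiff J K₁, symmDiff J K₂, symmDiff F D, symmDiff A2 D,
    symmDiff (symmDiff F A2) D], ?_, ?_⟩
  · intro i v
    rw [← ZMod.natCast_eq_zero_iff_even]
    fin_cases i
    · show ((G.deg (symmDiff J K₁) v : ℕ) : ZMod 2) = 0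
      rw [par_sd, pJ, p1]
      split_ifs
      · rw [hh]
      · rw [add_zero]
    · show ((G.deg (symmDiff J K₂) v : ℕ) : ZMod 2) = 0
      rw [par_sd, pJ, p2]
      split_ifs
      · rw [hh]
      · rw [add_zero]
    · show ((G.deg (symmDiff F D) v : ℕ) : ZMod 2) = 0
      rw [par_sd, pF, pD, add_zero]
    · show ((G.deg (symmDiff A2 D) v : ℕ) : ZMod 2) = 0
      rw [par_sd, pA2, pD, add_zero]
    · show ((G.deg (symmDiff (symmDiff F A2) D) v : ℕ) : ZMod 2) = 0
      rw [par_sd, par_sd, pF, pA2, pD, add_zero, add_zero]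
  · intro e
    rw [Finset.card_filter, Fin.sum_univ_five]
    show (if e ∈ symmDiff J K₁ then 1 else 0) + (if e ∈ symmDiff J K₂ then 1 else 0) +
      (if e ∈ symmDiff F D then 1 else 0) + (if e ∈ symmDiff A2 D then 1 else 0) +
      (if e ∈ symmDiff (symmDiff F A2) D then 1 else 0) = 2
    rw [hA2, hD]
    simp only [Finset.mem_symmDiff, Finset.mem_compl]
    have k1 := hJF e
    have k2 := h12' e
    have k3 := h1' e
    have k4 := h2' e
    have k5 : e ∈ A → e ∈ F := fun h => hAF h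
    by_cases q1 : e ∈ J
    · have q2 := k1 q1
      have q3 := k3 q1
      have q4 := k4 q1
      have q5 : e ∉ A := fun h => q2 (k5 h)
      simp [Finset.mem_symmDiff, Finset.mem_compl, q1, q2, q3, q4, q5]
    · by_cases q2 : e ∈ F
      · by_cases q3 : e ∈ K₁
        · have q4 := k2 q3
          by_cases q5 : e ∈ A <;> simp [Finset.mem_symmDiff, Finset.mem_compl, q1, q2, q3, q4, q5]
        · by_cases q4 : e ∈ K₂ <;> by_cases q5 : e ∈ A <;> simp [Finset.mem_symmDiff, Finset.mem_compl, q1, q2, q3, q4, q5]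
      · have q5 : e ∉ A := fun h => q2 (k5 h)
        by_cases q3 : e ∈ K₁
        · have q4 := k2 q3
          simp [Finset.mem_symmDiff, Finset.mem_compl, q1, q2, q3, q4, q5]
        · by_cases q4 : e ∈ K₂ <;> simp [Finset.mem_symmDiff, Finset.mem_compl, q1, q2, q3, q4, q5]

end

end Pool.Agent.N152.CD
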